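import Pool.Agent.Hlc.Fin

/-!
# List colouring of the union of two random Hamiltonian cycles: lists with few odd cycles in the colour classes

There are `ε, γ > 0` and `k₀` such that asymptotically almost surely the union `G` of two independent uniform Hamiltonian
cycles on `n` vertices is `L`-colourable for every list assignment `L` with `|L v| ≥ 3` for which, for some `k` with
`k₀ ≤ k ≤ γ log n` and for every colour `c`, every vertex lies in at most `(1 + ε)^k` sequences of `k` consecutive vertices of
odd cycles of `G` all of whose vertices have `c` in their lists. The probability is the fraction of the pairs `p` of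
permutations of `Fin n`, the cycles being the images of `0, 1, …, n - 1` under `p.1` and `p.2`.
-/

set_option autoImplicit false

namespace Pool.Agent.Results.MP_e6c83c_co.FewOddCycles

open Filter Topology

theorem result : ∃ ε γ : ℝ, 0 < ε ∧ 0 < γ ∧ ∃ k₀ : ℕ, Tendsto (fun n : ℕ =>
    (Nat.card {p : Equiv.Perm (Fin n) × Equiv.Perm (Fin n) // ∀ L : Fin n → Finset ℕ, (∀ v, 3 ≤ (L v).card) →
      Hlc.Growth ε γ k₀ n (Hlc.HG n p) L → Hlc.LCol (Hlc.HG n p) L} : ℝ) / (n.factorial : ℝ) ^ 2) atTop (𝓝 1) :=
  Hlc.main.1

end Pool.Agent.Results.MP_e6c83c_co.FewOddCycles
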